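import Mathlib
import Pool.Agent.H350R3.QM.MainInd

set_option autoImplicit false

/-!
# Entering the first window when the target is not an integer
-/

namespace Pool.Agent.H350R3.QM

open Pool.Agent.H932R3

section

variable {δ r P : ℕ} {η : ℝ}

theorem G0_bounds {y : ℝ} (hy : 0 < y) : 4 / (y + 4) ^ 2 ≤ Gk 0 y ∧ Gk 0 y ≤ 4 / y ^ 2 := by
  have h := Gk_bounds 0 hy
  rw [ck_zero] at h
  have h1 : ((shS 0 : ℕ) : ℝ) = 4 := by norm_num [shS]
  rw [h1] at h
  exact h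

theorem phaseA (hδ : 0 < δ) (hP : 2000 ≤ P) (hsm : Small r P) {Q : ℕ} (hQ : Q ≤ r)
    (hbud : |η| + 8 / (P : ℝ) ^ 2 ≤ 10 / (32 * (r : ℝ))) (n : ℕ) :
    ∀ (p : ℕ) (T : ℝ), P ≤ p → p % 4 = r % 4 → p + 8 * n ≤ Q → RR δ r p (T - η) →
      17 / 5 ≤ T * (p : ℝ) ^ 2 → T ≤ η + 8 / (P : ℝ) ^ 2 →
      T ≤ 15 / 2 / (Q : ℝ) ^ 2 + n * (4 / ((Q : ℝ) + 7) ^ 2) →
      ∃ (p' : ℕ) (T' : ℝ), p ≤ p' ∧ p' ≤ Q ∧ p' % 4 = r % 4 ∧ RR δ r p' (T' - η) ∧
        17 / 5 ≤ T' * (p' : ℝ) ^ 2 ∧ T' * (p' : ℝ) ^ 2 ≤ 15 / 2 := by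
  induction n with
  | zero =>
    intro p T hp hmod hpQ hR h1 _ h3
    refine ⟨p, T, le_rfl, by omega, hmod, hR, h1, ?_⟩
    have hp0 : (0 : ℝ) < p := by exact_mod_cast (show 0 < p by omega)
    have hpQ' : (p : ℝ) ≤ Q := by exact_mod_cast (show p ≤ Q by omega)
    have h4 : T ≤ 15 / 2 / (p : ℝ) ^ 2 := by
      refine h3.trans ?_
      push_cast
      rw [zero_mul, add_zero]
      exact div_le_div_of_nonneg_left (by norm_num) (by positivity)
        (pow_le_pow_left₀ hp0.le hpQ' 2)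
    rwa [le_div_iff₀ (by positivity)] at h4
  | succ n ih =>
    intro p T hp hmod hpQ hR h1 h2 h3
    by_cases hT : T * (p : ℝ) ^ 2 ≤ 15 / 2
    · exact ⟨p, T, le_rfl, by omega, hmod, hR, h1, hT⟩
    · rw [not_le] at hT
      have hp0 : (0 : ℝ) < p := by exact_mod_cast (show 0 < p by omega)
      have hp2 : (0 : ℝ) < (p : ℝ) ^ 2 := by positivity
      have hT0 : 0 < T := by
        by_contra hcon
        rw [not_lt] at hcon
        nlinarith
      have habs : |T - η| ≤ 10 / (32 * (r : ℝ)) := by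
        refine le_trans ?_ hbud
        have h8 : 0 < 8 / (P : ℝ) ^ 2 := by
          have : (0 : ℝ) < P := by exact_mod_cast (show 0 < P by omega)
          positivity
        rw [abs_le]
        have := neg_abs_le η
        have := le_abs_self η
        constructor <;> linarith
      have h4 := RRq.stepA hδ (by omega) hsm hp (by omega) hmod habs hR
      obtain ⟨hg1, hg2⟩ := G0_bounds (y := (p : ℝ) + 3) (by linarith)
      obtain ⟨G, hG⟩ : ∃ G, G = Gk 0 ((p : ℝ) + 3) := ⟨_, rfl⟩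
      rw [← hG] at h4 hg1 hg2
      have e1 : T - η - G = T - G - η := by ring
      rw [e1] at h4
      have hG4 : G * (p : ℝ) ^ 2 ≤ 4 := by
        have h5 : G ≤ 4 / (p : ℝ) ^ 2 := hg2.trans
          (div_le_div_of_nonneg_left (by norm_num) hp2
            (pow_le_pow_left₀ hp0.le (by linarith) 2))
        rwa [le_div_iff₀ hp2] at h5
      have hGQ : 4 / ((Q : ℝ) + 7) ^ 2 ≤ G := by
        refine le_trans ?_ hg1
        have hpQ' : (p : ℝ) ≤ Q := by exact_mod_cast (show p ≤ Q by omega)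
        exact div_le_div_of_nonneg_left (by norm_num) (by positivity)
          (pow_le_pow_left₀ (by positivity) (by linarith) 2)
      have hG0 : 0 < G := by
        refine lt_of_lt_of_le ?_ hGQ
        positivity
      obtain ⟨p', T', h5, h6, h7⟩ := ih (p + 8) (T - G) (by omega) (by omega) (by omega) h4 (by
          push_cast
          have h8 : 17 / 5 ≤ (T - G) * (p : ℝ) ^ 2 := by nlinarith
          have h9 : 0 ≤ T - G := by
            by_contra hcon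
            rw [not_le] at hcon
            nlinarith
          have h10 : (p : ℝ) ^ 2 ≤ ((p : ℝ) + 8) ^ 2 := pow_le_pow_left₀ hp0.le (by linarith) 2
          have := mul_le_mul_of_nonneg_left h10 h9
          linarith) (by linarith) (by
          push_cast at h3
          linarith)
      exact ⟨p', T', by omega, h6, h7⟩

theorem phaseB (hδ : 0 < δ) (hP : 2000 ≤ P) (hsm : Small r P) {Q : ℕ} (hQ : Q ≤ r)
    (hbud : |η| + 8 / (P : ℝ) ^ 2 ≤ 10 / (32 * (r : ℝ))) (n : ℕ) :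
    ∀ (p : ℕ) (T : ℝ), P ≤ p → p % 4 = r % 4 → p + 8 * n ≤ Q → RR δ r p (T - η) →
      T * (p : ℝ) ^ 2 ≤ 15 / 2 → 0 ≤ T - η →
      17 / 5 / (P : ℝ) ^ 2 - n * (4 / ((Q : ℝ) + 7) ^ 2) ≤ T →
      ∃ (p' : ℕ) (T' : ℝ), p ≤ p' ∧ p' ≤ Q ∧ p' % 4 = r % 4 ∧ RR δ r p' (T' - η) ∧
        17 / 5 ≤ T' * (p' : ℝ) ^ 2 ∧ T' * (p' : ℝ) ^ 2 ≤ 15 / 2 := by
  have hP0 : (0 : ℝ) < P := by exact_mod_cast (show 0 < P by omega)
  induction n with
  | zero =>
    intro p T hp hmod hpQ hR h1 _ h3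
    refine ⟨p, T, le_rfl, by omega, hmod, hR, ?_, h1⟩
    have hp0 : (0 : ℝ) < p := by exact_mod_cast (show 0 < p by omega)
    have hpP' : (P : ℝ) ≤ p := by exact_mod_cast hp
    have h4 : 17 / 5 / (p : ℝ) ^ 2 ≤ T := by
      refine le_trans ?_ h3
      push_cast
      rw [zero_mul, sub_zero]
      exact div_le_div_of_nonneg_left (by norm_num) (by positivity)
        (pow_le_pow_left₀ hP0.le hpP' 2)
    rwa [div_le_iff₀ (by positivity)] at h4
  | succ n ih =>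
    intro p T hp hmod hpQ hR h1 h2 h3
    by_cases hT : 17 / 5 ≤ T * (p : ℝ) ^ 2
    · exact ⟨p, T, le_rfl, by omega, hmod, hR, hT, h1⟩
    · rw [not_le] at hT
      have hp2000 : (2000 : ℝ) ≤ p := by exact_mod_cast (show 2000 ≤ p by omega)
      have hp0 : (0 : ℝ) < p := by linarith
      have hp2 : (0 : ℝ) < (p : ℝ) ^ 2 := by positivity
      have hpP' : (P : ℝ) ≤ p := by exact_mod_cast hp
      have hTle : T ≤ 8 / (P : ℝ) ^ 2 := by
        have h5 : T ≤ 15 / 2 / (p : ℝ) ^ 2 := by rwa [le_div_iff₀ hp2]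
        have h6 : 15 / 2 / (p : ℝ) ^ 2 ≤ 15 / 2 / (P : ℝ) ^ 2 :=
          div_le_div_of_nonneg_left (by norm_num) (by positivity)
            (pow_le_pow_left₀ hP0.le hpP' 2)
        have h7 : 15 / 2 / (P : ℝ) ^ 2 ≤ 8 / (P : ℝ) ^ 2 :=
          div_le_div_of_nonneg_right (by norm_num) (by positivity)
        linarith
      have habs : |T - η| ≤ 10 / (32 * (r : ℝ)) := by
        refine le_trans ?_ hbud
        have h8 : 0 < 8 / (P : ℝ) ^ 2 := by positivity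
        rw [abs_le]
        have := neg_abs_le η
        have := le_abs_self η
        constructor <;> linarith
      have h4 := RRq.stepB hδ (by omega) hsm hp (by omega) hmod habs hR
      obtain ⟨hg1, hg2⟩ := G0_bounds (y := (p : ℝ) + 1) (by linarith)
      obtain ⟨G, hG⟩ : ∃ G, G = Gk 0 ((p : ℝ) + 1) := ⟨_, rfl⟩
      rw [← hG] at h4 hg1 hg2
      have e1 : T - η + G = T + G - η := by ring
      rw [e1] at h4
      have hG4 : G * (p : ℝ) ^ 2 ≤ 4 := by
        have h5 : G ≤ 4 / (p : ℝ) ^ 2 := hg2.trans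
          (div_le_div_of_nonneg_left (by norm_num) hp2
            (pow_le_pow_left₀ hp0.le (by linarith) 2))
        rwa [le_div_iff₀ hp2] at h5
      have hGQ : 4 / ((Q : ℝ) + 7) ^ 2 ≤ G := by
        refine le_trans ?_ hg1
        have hpQ' : (p : ℝ) ≤ Q := by exact_mod_cast (show p ≤ Q by omega)
        exact div_le_div_of_nonneg_left (by norm_num) (by positivity)
          (pow_le_pow_left₀ (by positivity) (by linarith) 2)
      have hG0 : 0 < G := by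
        refine lt_of_lt_of_le ?_ hGQ
        positivity
      obtain ⟨p', T', h5, h6, h7⟩ := ih (p + 8) (T + G) (by omega) (by omega) (by omega) h4 (by
          push_cast
          have h8 : (T + G) * (p : ℝ) ^ 2 ≤ 37 / 5 := by nlinarith
          rcases le_or_gt (T + G) 0 with h9 | h9
          · have : (T + G) * ((p : ℝ) + 8) ^ 2 ≤ 0 :=
              mul_nonpos_of_nonpos_of_nonneg h9 (by positivity)
            linarith
          · have h10 : ((p : ℝ) + 8) ^ 2 ≤ 75 / 74 * (p : ℝ) ^ 2 := by nlinarith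
            have := mul_le_mul_of_nonneg_left h10 h9.le
            linarith) (by linarith) (by
          push_cast at h3
          linarith)
      exact ⟨p', T', by omega, h6, h7⟩

theorem phaseC (hδ : 0 < δ) (hP : 2000 ≤ P) (hsm : Small r P) {Q : ℕ} (hQ : Q ≤ r)
    (hbud : |η| + 8 / (P : ℝ) ^ 2 ≤ 10 / (32 * (r : ℝ))) (n : ℕ) :
    ∀ (p : ℕ) (T : ℝ), P ≤ p → p % 4 = r % 4 → p + 4 * n ≤ Q → RR δ r p (T - η) →
      17 / 5 ≤ T * (p : ℝ) ^ 2 → T * (p : ℝ) ^ 2 ≤ 15 / 2 →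
      61 / 10 ≤ T * ((p : ℝ) + 4 * n) ^ 2 →
      ∃ (p' : ℕ), p ≤ p' ∧ p' ≤ Q ∧ p' % 4 = r % 4 ∧ RR δ r p' (T - η) ∧
        61 / 10 ≤ T * (p' : ℝ) ^ 2 ∧ T * (p' : ℝ) ^ 2 ≤ 15 / 2 := by
  have hP0 : (0 : ℝ) < P := by exact_mod_cast (show 0 < P by omega)
  induction n with
  | zero =>
    intro p T hp hmod hpQ hR _ h2 h3
    refine ⟨p, le_rfl, by omega, hmod, hR, ?_, h2⟩
    push_cast at h3
    rwa [mul_zero, add_zero] at h3
  | succ n ih =>
    intro p T hp hmod hpQ hR h1 h2 h3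
    by_cases hT : 61 / 10 ≤ T * (p : ℝ) ^ 2
    · exact ⟨p, le_rfl, by omega, hmod, hR, hT, h2⟩
    · rw [not_le] at hT
      have hp2000 : (2000 : ℝ) ≤ p := by exact_mod_cast (show 2000 ≤ p by omega)
      have hp0 : (0 : ℝ) < p := by linarith
      have hp2 : (0 : ℝ) < (p : ℝ) ^ 2 := by positivity
      have hpP' : (P : ℝ) ≤ p := by exact_mod_cast hp
      have hTle : T ≤ 8 / (P : ℝ) ^ 2 := by
        have h5 : T ≤ 15 / 2 / (p : ℝ) ^ 2 := by rwa [le_div_iff₀ hp2]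
        have h6 : 15 / 2 / (p : ℝ) ^ 2 ≤ 15 / 2 / (P : ℝ) ^ 2 :=
          div_le_div_of_nonneg_left (by norm_num) (by positivity)
            (pow_le_pow_left₀ hP0.le hpP' 2)
        have h7 : 15 / 2 / (P : ℝ) ^ 2 ≤ 8 / (P : ℝ) ^ 2 :=
          div_le_div_of_nonneg_right (by norm_num) (by positivity)
        linarith
      have hT0 : 0 < T := by
        by_contra hcon
        rw [not_lt] at hcon
        nlinarith
      have habs : |T - η| ≤ 10 / (32 * (r : ℝ)) := by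
        refine le_trans ?_ hbud
        have h8 : 0 < 8 / (P : ℝ) ^ 2 := by positivity
        rw [abs_le]
        have := neg_abs_le η
        have := le_abs_self η
        constructor <;> linarith
      have h4 := RRq.stepU hδ (by omega) hsm hp (by omega) hmod habs hR
      have h10 : ((p : ℝ) + 4) ^ 2 ≤ 75 / 74 * (p : ℝ) ^ 2 := by nlinarith
      have h11 : (p : ℝ) ^ 2 ≤ ((p : ℝ) + 4) ^ 2 := pow_le_pow_left₀ hp0.le (by linarith) 2
      obtain ⟨p', h5, h6, h7⟩ := ih (p + 4) T (by omega) (by omega) (by omega) h4 (by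
          push_cast
          have := mul_le_mul_of_nonneg_left h11 hT0.le
          linarith) (by
          push_cast
          have := mul_le_mul_of_nonneg_left h10 hT0.le
          linarith) (by
          push_cast at h3 ⊢
          have e1 : (p : ℝ) + 4 + 4 * n = p + 4 * (n + 1) := by ring
          rw [e1]
          exact h3)
      exact ⟨p', by omega, h6, h7⟩

theorem phaseD (hδ : 0 < δ) (hP : 2000 ≤ P) (hsm : Small r P)
    (hbud : |η| + 8 / (P : ℝ) ^ 2 ≤ 10 / (32 * (r : ℝ))) {p : ℕ} {T : ℝ} (hp : P ≤ p)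
    (hpr : p ≤ r) (hmod : p % 4 = r % 4) (hR : RR δ r p (T - η))
    (h1 : 61 / 10 ≤ T * (p : ℝ) ^ 2) (h2 : T * (p : ℝ) ^ 2 ≤ 15 / 2) :
    ∃ T', RR δ r (p + 8) (T' - η) ∧ wl 0 ((p + 8 : ℕ) : ℝ) ≤ T' ∧
      T' ≤ wu 0 ((p + 8 : ℕ) : ℝ) := by
  have hP0 : (0 : ℝ) < P := by exact_mod_cast (show 0 < P by omega)
  have hp2000 : (2000 : ℝ) ≤ p := by exact_mod_cast (show 2000 ≤ p by omega)
  have hp0 : (0 : ℝ) < p := by linarith
  have hp2 : (0 : ℝ) < (p : ℝ) ^ 2 := by positivity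
  have hpP' : (P : ℝ) ≤ p := by exact_mod_cast hp
  have hTle : T ≤ 8 / (P : ℝ) ^ 2 := by
    have h5 : T ≤ 15 / 2 / (p : ℝ) ^ 2 := by rwa [le_div_iff₀ hp2]
    have h6 : 15 / 2 / (p : ℝ) ^ 2 ≤ 15 / 2 / (P : ℝ) ^ 2 :=
      div_le_div_of_nonneg_left (by norm_num) (by positivity)
        (pow_le_pow_left₀ hP0.le hpP' 2)
    have h7 : 15 / 2 / (P : ℝ) ^ 2 ≤ 8 / (P : ℝ) ^ 2 :=
      div_le_div_of_nonneg_right (by norm_num) (by positivity)
    linarith
  have hT0 : 0 < T := by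
    by_contra hcon
    rw [not_lt] at hcon
    nlinarith
  have habs : |T - η| ≤ 10 / (32 * (r : ℝ)) := by
    refine le_trans ?_ hbud
    have h8 : 0 < 8 / (P : ℝ) ^ 2 := by positivity
    rw [abs_le]
    have := neg_abs_le η
    have := le_abs_self η
    constructor <;> linarith
  have h4 := RRq.stepA hδ (by omega) hsm hp hpr hmod habs hR
  obtain ⟨hg1, hg2⟩ := G0_bounds (y := (p : ℝ) + 3) (by linarith)
  obtain ⟨G, hG⟩ : ∃ G, G = Gk 0 ((p : ℝ) + 3) := ⟨_, rfl⟩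
  rw [← hG] at h4 hg1 hg2
  have e1 : T - η - G = T - G - η := by ring
  rw [e1] at h4
  have hG4 : G * (p : ℝ) ^ 2 ≤ 4 := by
    have h5 : G ≤ 4 / (p : ℝ) ^ 2 := hg2.trans
      (div_le_div_of_nonneg_left (by norm_num) hp2
        (pow_le_pow_left₀ hp0.le (by linarith) 2))
    rwa [le_div_iff₀ hp2] at h5
  have hG4' : 4 ≤ G * ((p : ℝ) + 8) ^ 2 := by
    have h5 : 4 / ((p : ℝ) + 8) ^ 2 ≤ G := by
      refine le_trans ?_ hg1
      exact div_le_div_of_nonneg_left (by norm_num) (by positivity)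
        (pow_le_pow_left₀ (by positivity) (by linarith) 2)
    rwa [div_le_iff₀ (by positivity)] at h5
  have h11 : (p : ℝ) ^ 2 ≤ ((p : ℝ) + 8) ^ 2 := pow_le_pow_left₀ hp0.le (by linarith) 2
  have h10 : ((p : ℝ) + 8) ^ 2 ≤ 76 / 75 * (p : ℝ) ^ 2 := by nlinarith
  have e2 : ((p + 8 : ℕ) : ℝ) = (p : ℝ) + 8 := by push_cast; ring
  refine ⟨T - G, h4, ?_, ?_⟩
  · unfold wl
    rw [ck_zero, e2, div_le_iff₀ (by positivity), zero_add]
    have h8 : 21 / 10 ≤ (T - G) * (p : ℝ) ^ 2 := by nlinarith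
    have h9 : 0 ≤ T - G := by
      by_contra hcon
      rw [not_le] at hcon
      nlinarith
    have := mul_le_mul_of_nonneg_left h11 h9
    linarith
  · unfold wu
    rw [ck_zero, e2, le_div_iff₀ (by positivity), zero_add]
    have := mul_le_mul_of_nonneg_left h10 hT0.le
    nlinarith

/-- From the first window relative to an integer to the first window relative to a real. -/
theorem prestage (hδ : 0 < δ) (hP : 2000 ≤ P) (hsm : Small r P) (hmod : P % 4 = r % 4)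
    (hr : 15 * P ≤ r) (hη : |η| ≤ 9 / (32 * (r : ℝ)))
    (hbud : |η| + 8 / (P : ℝ) ^ 2 ≤ 10 / (32 * (r : ℝ))) {T0 : ℝ} (hT : RR δ r P T0)
    (h1 : wl 0 P ≤ T0) (h2 : T0 ≤ wu 0 P) :
    ∃ (P' : ℕ) (T' : ℝ), P ≤ P' ∧ P' ≤ 3 * P ∧ P' % 4 = r % 4 ∧ RR δ r P' (T' - η) ∧
      wl 0 P' ≤ T' ∧ T' ≤ wu 0 P' := by
  have hPR : (2000 : ℝ) ≤ P := by exact_mod_cast hP
  have hP0 : (0 : ℝ) < P := by linarith
  have hP2 : (0 : ℝ) < (P : ℝ) ^ 2 := by positivity
  have hrR : 15 * (P : ℝ) ≤ r := by exact_mod_cast hr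
  have hr0 : (0 : ℝ) < r := by linarith
  have hη' : |η| ≤ 3 / 160 / P := by
    refine hη.trans ?_
    rw [div_div, div_le_div_iff₀ (by positivity) (by positivity)]
    linarith
  have hη1 := neg_abs_le η
  have hη2 := le_abs_self η
  have hT1 : 0 < T0 := by
    refine lt_of_lt_of_le ?_ h1
    unfold wl
    rw [ck_zero]
    positivity
  have hT2 : T0 ≤ 18 / 5 / (P : ℝ) ^ 2 := by
    refine h2.trans (le_of_eq ?_)
    unfold wu
    rw [ck_zero, zero_add]
    field_simp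
    norm_num
  have hsq : 1 / (P : ℝ) ^ 2 ≤ 1 / 2000 / P := by
    rw [div_div, div_le_div_iff₀ hP2 (by positivity)]
    nlinarith
  obtain ⟨n1, hn1⟩ : ∃ n1, n1 = P / 16 + 1 := ⟨_, rfl⟩
  have hn1R : (P : ℝ) / 16 ≤ n1 := by
    have h3 : P ≤ 16 * n1 := by omega
    have h4 : (P : ℝ) ≤ 16 * n1 := by exact_mod_cast h3
    linarith
  obtain ⟨Q, hQ⟩ : ∃ Q, Q = P + 8 * n1 := ⟨_, rfl⟩
  have hQ3 : 250 * Q ≤ 376 * P := by omega
  have hQR : ((Q : ℝ) + 7) ≤ 151 / 100 * P := by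
    have h4 : (250 : ℝ) * Q ≤ 376 * P := by exact_mod_cast hQ3
    linarith
  have hsum : 1 / 10 / (P : ℝ) ≤ n1 * (4 / ((Q : ℝ) + 7) ^ 2) := by
    have h4 : 4 / (151 / 100 * (P : ℝ)) ^ 2 ≤ 4 / ((Q : ℝ) + 7) ^ 2 :=
      div_le_div_of_nonneg_left (by norm_num) (by positivity)
        (pow_le_pow_left₀ (by positivity) hQR 2)
    have h5 : (P : ℝ) / 16 * (4 / (151 / 100 * (P : ℝ)) ^ 2) ≤
        n1 * (4 / ((Q : ℝ) + 7) ^ 2) :=
      mul_le_mul hn1R h4 (by positivity) (by positivity)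
    refine le_trans ?_ h5
    have h6 : (P : ℝ) / 16 * (4 / (151 / 100 * (P : ℝ)) ^ 2) = 2500 / 22801 / P := by
      field_simp
      norm_num
    rw [h6]
    exact div_le_div_of_nonneg_right (by norm_num) hP0.le
  have hQr : Q ≤ r := by omega
  have e0 : T0 = T0 + η - η := by ring
  rw [e0] at hT
  have hPinv : 0 < 1 / (P : ℝ) := by positivity
  have e3 : (3 : ℝ) / 160 / P = 3 / 160 * (1 / P) := by ring
  have e4 : (1 : ℝ) / 10 / P = 1 / 10 * (1 / P) := by ring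
  have e5 : (1 : ℝ) / 2000 / P = 1 / 2000 * (1 / P) := by ring
  have e6 : 18 / 5 / (P : ℝ) ^ 2 = 18 / 5 * (1 / (P : ℝ) ^ 2) := by ring
  have e7 : 17 / 5 / (P : ℝ) ^ 2 = 17 / 5 * (1 / (P : ℝ) ^ 2) := by ring
  have e8 : 8 / (P : ℝ) ^ 2 = 8 * (1 / (P : ℝ) ^ 2) := by ring
  have hP2inv : 0 < 1 / (P : ℝ) ^ 2 := by positivity
  rw [e3] at hη'
  rw [e4] at hsum
  rw [e5] at hsq
  rw [e6] at hT2
  have hph : ∃ (p' : ℕ) (T' : ℝ), P ≤ p' ∧ p' ≤ Q ∧ p' % 4 = r % 4 ∧ RR δ r p' (T' - η) ∧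
        17 / 5 ≤ T' * (p' : ℝ) ^ 2 ∧ T' * (p' : ℝ) ^ 2 ≤ 15 / 2 := by
    by_cases hc : 17 / 5 ≤ (T0 + η) * (P : ℝ) ^ 2
    · refine phaseA hδ hP hsm hQr hbud n1 P (T0 + η) le_rfl hmod hQ.ge hT hc ?_ ?_
      · rw [e8]
        linarith
      · have h9 : 0 ≤ 15 / 2 / (Q : ℝ) ^ 2 := by positivity
        linarith
    · rw [not_le] at hc
      refine phaseB hδ hP hsm hQr hbud n1 P (T0 + η) le_rfl hmod hQ.ge hT (by linarith) ?_ ?_
      · linarith
      · rw [e7]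
        linarith
  obtain ⟨p, T, hp1, hp2, hp3, hp4, hp5, hp6⟩ := hph
  have hpP : (P : ℝ) ≤ p := by exact_mod_cast hp1
  have hp0 : (0 : ℝ) < p := by linarith
  have hTp : 0 < T := by
    by_contra hcon
    rw [not_lt] at hcon
    have : T * (p : ℝ) ^ 2 ≤ 0 := mul_nonpos_of_nonpos_of_nonneg hcon (by positivity)
    linarith
  obtain ⟨n2, hn2⟩ : ∃ n2, n2 = p / 8 := ⟨_, rfl⟩
  have hn2R : (149 / 100 : ℝ) * p ≤ (p : ℝ) + 4 * n2 := by
    have h3 : 49 * p ≤ 400 * n2 := by omega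
    have h4 : (49 : ℝ) * p ≤ 400 * n2 := by exact_mod_cast h3
    linarith
  obtain ⟨p', hq1, hq2, hq3, hq4, hq5, hq6⟩ := phaseC hδ hP hsm (Q := p + 4 * n2) (by omega)
    hbud n2 p T hp1 hp3 le_rfl hp4 hp5 hp6 (by
      have h3 : ((149 / 100 : ℝ) * p) ^ 2 ≤ ((p : ℝ) + 4 * n2) ^ 2 :=
        pow_le_pow_left₀ (by positivity) hn2R 2
      have h4 := mul_le_mul_of_nonneg_left h3 hTp.le
      have h5 : T * ((149 / 100 : ℝ) * p) ^ 2 = 22201 / 10000 * (T * (p : ℝ) ^ 2) := by ring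
      rw [h5] at h4
      linarith)
  obtain ⟨T', h5, h6, h7⟩ := phaseD hδ hP hsm hbud (p := p') (T := T) (by omega) (by omega) hq3
    hq4 hq5 hq6
  exact ⟨p' + 8, T', by omega, by omega, by omega, h5, h6, h7⟩

end

end Pool.Agent.H350R3.QM
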