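import Mathlib
import Pool.Agent.H932R3.Empty

set_option autoImplicit false

/-!
# The ideals of the polynomials with large quasimonomial value along a curve `y = γ(x)`
-/

namespace Pool.Agent.H350R3.QM

open Polynomial Pool.Agent.H932R2 Pool.Agent.H932R3

variable {K : Type*} [Field K]

/-- Finite sets of exponents closed under passing to smaller exponents. -/
def Stair (W : Finset (ℕ × ℕ)) : Prop :=
  ∀ p ∈ W, ∀ i l : ℕ, i ≤ p.1 → l ≤ p.2 → (i, l) ∈ W

/-- The polynomials whose coefficients at the exponents in `W` vanish after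
`x ↦ x + c`, `y ↦ y + γ(x + c)`. -/
noncomputable def sIdeal {W : Finset (ℕ × ℕ)} (hW : Stair W) (c : K) (γ : K[X]) :
    Ideal K[X][X] where
  carrier := {f | ∀ p ∈ W, ((sh c γ f).coeff p.2).coeff p.1 = 0}
  zero_mem' := by
    intro p _
    simp
  add_mem' := by
    intro a b ha hb p hp
    rw [map_add, coeff_add, coeff_add, ha p hp, hb p hp, add_zero]
  smul_mem' := by
    intro a b hb p hp
    rw [smul_eq_mul, map_mul, coeff_mul, finsetSum_coeff]
    refine Finset.sum_eq_zero fun q hq => ?_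
    have hq := Finset.HasAntidiagonal.mem_antidiagonal.1 hq
    rw [coeff_mul]
    refine Finset.sum_eq_zero fun q' hq' => ?_
    have hq' := Finset.HasAntidiagonal.mem_antidiagonal.1 hq'
    rw [hb (q'.2, q.2) (hW p hp _ _ (by omega) (by omega)), mul_zero]

theorem mem_sIdeal {W : Finset (ℕ × ℕ)} {hW : Stair W} {c : K} {γ : K[X]} {f : K[X][X]} :
    f ∈ sIdeal hW c γ ↔ ∀ p ∈ W, ((sh c γ f).coeff p.2).coeff p.1 = 0 := Iff.rfl

/-- The family of all these ideals. -/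
def sFam (K : Type*) [Field K] {W : Finset (ℕ × ℕ)} (hW : Stair W) : Set (Ideal K[X][X]) :=
  {J | ∃ (c : K) (γ : K[X]), J = sIdeal hW c γ}

theorem shc_subY (ρ : ℕ) (c t : K) (γ' : K[X]) (f : K[X][X]) :
    sh c γ' (subY ρ t f) = (sh c (X ^ ρ + C t * γ') f).comp (C (C t) * X) := by
  have h : (sh c γ').comp (subY ρ t : K[X][X] →+* K[X][X]) =
      (compRingHom (C (C t) * X)).comp (sh c (X ^ ρ + C t * γ')) := by
    refine ringHom_ext' (ringHom_ext' ?_ ?_) ?_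
    · ext a
      simp [sh_C, subY_C]
    · simp [sh_C, subY_C]
    · simp [sh_X, sh_C, subY_X]
      ring
  exact congrArg (fun φ : K[X][X] →+* K[X][X] => φ f) h

theorem shc_subX (c t : K) (ht : t ≠ 0) (γ' : K[X]) (f : K[X][X]) :
    sh c γ' (subX t f) =
      (sh (1 + t * c) (γ'.comp (C t⁻¹ * (X - 1))) f).map (compRingHom (C t * X)) := by
  have h : (sh c γ').comp (subX t : K[X][X] →+* K[X][X]) =
      (mapRingHom (compRingHom (C t * X))).comp
        (sh (1 + t * c) (γ'.comp (C t⁻¹ * (X - 1)))) := by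
    refine ringHom_ext' (ringHom_ext' ?_ ?_) ?_
    · ext a
      simp [sh_C, subX_C]
    · simp [sh_C, subX_C]
      ring
    · have h1 : ((C t⁻¹ * (X - 1) : K[X]).comp (X + C (1 + t * c))).comp (C t * X) =
          X + C c := by
        simp only [mul_comp, C_comp, sub_comp, X_comp, one_comp, add_comp, map_add, map_mul,
          map_one]
        have h2 : (C t⁻¹ * C t : K[X]) = 1 := by
          rw [← C_mul, inv_mul_cancel₀ ht, C_1]
        linear_combination (X + C c : K[X]) * h2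
      have h3 : ((γ'.comp (C t⁻¹ * (X - 1))).comp (X + C (1 + t * c))).comp (C t * X) =
          γ'.comp (X + C c) := by
        rw [comp_assoc γ', comp_assoc γ', h1]
      rw [RingHom.comp_apply, RingHom.coe_coe, subX_X, sh_X, RingHom.comp_apply, sh_X,
        coe_mapRingHom, Polynomial.map_add, Polynomial.map_X, Polynomial.map_C,
        coe_compRingHom_apply, h3]
  exact congrArg (fun φ : K[X][X] →+* K[X][X] => φ f) h

theorem sFam_stable {W : Finset (ℕ × ℕ)} (hW : Stair W) : Stable (sFam K hW) := by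
  constructor
  · rintro _ ⟨c, γ', rfl⟩ ρ t _
    refine ⟨_, ⟨c, X ^ ρ + C t * γ', rfl⟩, fun f hf => ?_⟩
    rw [Ideal.mem_comap, mem_sIdeal]
    intro p hp
    show ((sh c γ' (subY ρ t f)).coeff p.2).coeff p.1 = 0
    rw [shc_subY, comp_C_mul_X_coeff, ← C_pow, coeff_mul_C, mem_sIdeal.1 hf p hp, zero_mul]
  · rintro _ ⟨c, γ', rfl⟩ t ht
    refine ⟨_, ⟨1 + t * c, γ'.comp (C t⁻¹ * (X - 1)), rfl⟩, fun f hf => ?_⟩
    rw [Ideal.mem_comap, mem_sIdeal]
    intro p hp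
    show ((sh c γ' (subX t f)).coeff p.2).coeff p.1 = 0
    rw [shc_subX c t ht, coeff_map, coe_compRingHom_apply, comp_C_mul_X_coeff,
      mem_sIdeal.1 hf p hp, zero_mul]

/-- The base case. -/
theorem sFam_base {W : Finset (ℕ × ℕ)} (hW : Stair W) :
    RkS (sFam K hW) (↑W : Set (ℕ × ℕ)) W.card := by
  classical
  refine ⟨_, ⟨0, 0, rfl⟩, fun i => mon K (enumM W i),
    fun i => Submodule.subset_span ⟨_, enumM_mem W i, rfl⟩, fun c hc => ?_⟩
  rw [mem_sIdeal, sh_zero_zero] at hc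
  intro i
  have h5 := hc _ (enumM_mem W i)
  rw [finsetSum_coeff, finsetSum_coeff, Finset.sum_eq_single i] at h5
  · rw [coeff_smul, coeff_smul, coeff_mon, if_pos rfl] at h5
    simpa using h5
  · intro j _ hj
    rw [coeff_smul, coeff_smul, coeff_mon, if_neg, smul_zero]
    intro h
    exact hj (enumM_inj W h)
  · intro h
    exact absurd (Finset.mem_univ i) h

/-- The exponents of value less than `s`. -/
noncomputable def Wt (t s : ℝ) : Finset (ℕ × ℕ) := by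
  classical
  exact (Finset.range (⌈s⌉₊ + 1) ×ˢ Finset.range (⌈s / t⌉₊ + 1)).filter
    fun p => (p.1 : ℝ) + t * (p.2 : ℝ) < s

theorem mem_Wt {t s : ℝ} (ht : 0 < t) {i l : ℕ} :
    ((i, l) : ℕ × ℕ) ∈ Wt t s ↔ (i : ℝ) + t * (l : ℝ) < s := by
  classical
  unfold Wt
  rw [Finset.mem_filter, Finset.mem_product, Finset.mem_range, Finset.mem_range]
  constructor
  · exact fun h => h.2
  · intro h
    refine ⟨⟨?_, ?_⟩, h⟩
    · have h1 : (i : ℝ) < (⌈s⌉₊ + 1 : ℕ) := by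
        have h2 := Nat.le_ceil s
        have h3 : 0 ≤ t * (l : ℝ) := by positivity
        push_cast
        linarith
      exact_mod_cast h1
    · have h1 : (l : ℝ) < (⌈s / t⌉₊ + 1 : ℕ) := by
        have h2 := Nat.le_ceil (s / t)
        have h3 : (l : ℝ) ≤ s / t := by
          rw [le_div_iff₀ ht]
          have h4 : (0 : ℝ) ≤ i := Nat.cast_nonneg i
          nlinarith
        push_cast
        linarith
      exact_mod_cast h1

theorem stair_Wt {t s : ℝ} (ht : 0 < t) : Stair (Wt t s) := by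
  rintro ⟨i, l⟩ hp i' l' hi hl
  rw [mem_Wt ht] at hp ⊢
  have h1 : (i' : ℝ) ≤ i := by exact_mod_cast hi
  have h2 : (l' : ℝ) ≤ l := by exact_mod_cast hl
  nlinarith

theorem rank_Wt [Infinite K] {t s : ℝ} (ht : 0 < t) {δ d B : ℕ} (hδ : 2 ≤ δ)
    (hd : δ * ((δ - 1) * (δ - 2)) ≤ 2 * d) (hB : δ * d ≤ B)
    (hK : ∀ k : ℕ, 0 < k → k ≤ B → (k : K) ≠ 0) {σ : ℝ} (hσ : Reach δ σ)
    (h1 : (2 * (d : ℝ) + 3 - δ) / 2 * (Real.sqrt σ * max 1 (t / σ)) < s) :
    RkS (sFam K (stair_Wt (s := s) ht)) (Tset d) (Tfin d).card := by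
  have h𝓘 := sFam_stable (K := K) (stair_Wt (s := s) ht)
  have hml := Nat.mod_lt d (show 0 < δ by omega)
  have hdm := Nat.div_add_mod d δ
  obtain ⟨u, t', j, ht', hj, hz, hV, himp⟩ := initialV (n := (Tfin d).card) h𝓘 hδ
    (show d + 1 = δ * (d / δ) + (d % δ + 1) by omega) hml (YY_le hδ hd) hB hK
  refine himp ?_
  have hδ0 : 0 < δ := by omega
  have hδ' : (0 : ℝ) < δ := by exact_mod_cast hδ0
  have hcard : (Lfin (δ * δ) u t' j).card = (Tfin d).card :=
    card_of_sz hj (hz.trans (card_Tfin d).symm)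
  rw [← coe_Lfin ht' hj, ← hcard]
  have hc := cc_two δ
  obtain ⟨V, hVd⟩ : ∃ V : ℝ, V = ((δ * δ * u + t' : ℕ) : ℝ) := ⟨_, rfl⟩
  have hVe : 2 * V = δ * (2 * (d : ℝ) + 3 - δ) := by
    have h3 : ((δ * δ * u + t' + cc δ : ℕ) : ℝ) = ((δ * (d + 1) : ℕ) : ℝ) := by rw [hV]
    have h4 : ((2 * cc δ + δ : ℕ) : ℝ) = ((δ * δ : ℕ) : ℝ) := by rw [hc]
    rw [hVd]
    push_cast at h3 h4 ⊢
    linarith
  have hLV : ∀ p ∈ Lfin (δ * δ) u t' j, (p.1 : ℝ) + (δ : ℝ) ^ 2 * (p.2 : ℝ) ≤ V := by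
    rintro ⟨i, l⟩ hp
    have h3 : ((i, l) : ℕ × ℕ) ∈ (↑(Lfin (δ * δ) u t' j) : Set (ℕ × ℕ)) := hp
    rw [coe_Lfin ht' hj, mem_Lset] at h3
    have h4 : i + δ * δ * l ≤ δ * δ * u + t' := by omega
    have h5 : ((i + δ * δ * l : ℕ) : ℝ) ≤ ((δ * δ * u + t' : ℕ) : ℝ) := by exact_mod_cast h4
    rw [← hVd] at h5
    push_cast at h5
    simp only
    nlinarith
  have hLB : ∀ p ∈ Lfin (δ * δ) u t' j, p.2 ≤ B := by
    rintro ⟨i, l⟩ hp
    have h3 : ((i, l) : ℕ × ℕ) ∈ (↑(Lfin (δ * δ) u t' j) : Set (ℕ × ℕ)) := hp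
    rw [coe_Lfin ht' hj, mem_Lset] at h3
    have h4 : δ * δ * l ≤ δ * δ * u + t' := by omega
    have h5 : δ * (δ * l) ≤ δ * (d + 1) := by
      rw [← Nat.mul_assoc]
      omega
    have h6 : δ * l ≤ d + 1 := Nat.le_of_mul_le_mul_left h5 hδ0
    have h7 : 2 * l ≤ δ * l := Nat.mul_le_mul_right _ hδ
    have h8 : 2 * d ≤ δ * d := Nat.mul_le_mul_right _ hδ
    simp only
    omega
  obtain ⟨M', h3, h4, h5, h6⟩ := reach_chain h𝓘 hδ0 hK hLB hLV hσ
  refine h6 ((sFam_base _).subset ?_)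
  have hσ0 : 0 < σ := hσ.pos hδ0
  have hs0 : 0 < Real.sqrt σ := Real.sqrt_pos.2 hσ0
  have hss : Real.sqrt σ * Real.sqrt σ = σ := Real.mul_self_sqrt hσ0.le
  rintro ⟨i, l⟩ hp
  have h7 := h5 _ hp
  simp only at h7
  have h8 : (i : ℝ) + σ * l ≤ (2 * (d : ℝ) + 3 - δ) / 2 * Real.sqrt σ := by
    have h9 : (δ / Real.sqrt σ * (i : ℝ) + δ * Real.sqrt σ * (l : ℝ)) * (Real.sqrt σ / δ) =
        i + σ * l := by
      field_simp
      rw [pow_two, hss]
      ring
    rw [← h9]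
    have h10 : V = δ * ((2 * (d : ℝ) + 3 - δ) / 2) := by linarith
    have h11 : (2 * (d : ℝ) + 3 - δ) / 2 * Real.sqrt σ = V * (Real.sqrt σ / δ) := by
      rw [h10]
      field_simp
    rw [h11]
    exact mul_le_mul_of_nonneg_right h7 (by positivity)
  have hi0 : (0 : ℝ) ≤ i := Nat.cast_nonneg i
  have hl0 : (0 : ℝ) ≤ l := Nat.cast_nonneg l
  rw [mem_Wt ht]
  have hm1 : 1 ≤ max 1 (t / σ) := le_max_left _ _
  have hm2 : t ≤ max 1 (t / σ) * σ := by
    have := le_max_right 1 (t / σ)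
    rwa [div_le_iff₀ hσ0] at this
  calc (i : ℝ) + t * l ≤ max 1 (t / σ) * (i + σ * l) := by nlinarith
    _ ≤ max 1 (t / σ) * ((2 * (d : ℝ) + 3 - δ) / 2 * Real.sqrt σ) :=
      mul_le_mul_of_nonneg_left h8 (by linarith)
    _ = (2 * (d : ℝ) + 3 - δ) / 2 * (Real.sqrt σ * max 1 (t / σ)) := by ring
    _ < s := h1

end Pool.Agent.H350R3.QM
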