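import Mathlib
import Pool.Agent.H350R3.QM.Fam

set_option autoImplicit false

/-!
# General jets
-/

namespace Pool.Agent.H350R3.QM

open Polynomial Pool.Agent.H932R2 Pool.Agent.H932R3

variable {K : Type*} [Field K]

/-- The conditions, as a linear map. -/
noncomputable def condMapW (W : Finset (ℕ × ℕ)) (c : K) (γ : K[X]) : K[X][X] →ₗ[K] (W → K) where
  toFun f e := ((sh c γ f).coeff e.1.2).coeff e.1.1
  map_add' f g := by
    ext e
    simp
  map_smul' a f := by
    ext e
    have h : sh c γ (a • f) = a • sh c γ f := by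
      have h1 : a • f = C (C a) * f := by
        rw [Algebra.smul_def]
        rfl
      have h2 : a • sh c γ f = C (C a) * sh c γ f := by
        rw [Algebra.smul_def]
        rfl
      rw [h1, h2, map_mul, sh_C, C_comp]
    simp only [h, coeff_smul, RingHom.id_apply, Pi.smul_apply, smul_eq_mul]

theorem mem_sIdeal_iff {W : Finset (ℕ × ℕ)} (hW : Stair W) {c : K} {γ : K[X]} {f : K[X][X]} :
    f ∈ sIdeal hW c γ ↔ condMapW W c γ f = 0 := by
  rw [mem_sIdeal]
  constructor
  · intro h
    ext ⟨p, hp⟩
    exact h p hp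
  · intro h p hp
    exact congrFun h ⟨p, hp⟩

theorem exists_openW {σ : Type*} {W : Finset (ℕ × ℕ)} (hW : Stair W) (c : MvPolynomial σ K)
    (γ : (MvPolynomial σ K)[X]) (T : Set (ℕ × ℕ)) (n : ℕ) (P0 : σ → K)
    (h : RkI (sIdeal hW (MvPolynomial.eval P0 c) (γ.map (MvPolynomial.eval P0))) T n) :
    ∃ F : MvPolynomial σ K, F ≠ 0 ∧ ∀ P, MvPolynomial.eval P F ≠ 0 →
      RkI (sIdeal hW (MvPolynomial.eval P c) (γ.map (MvPolynomial.eval P))) T n := by
  classical
  obtain ⟨v, hv, hli⟩ := h
  let L : (σ → K) → (Fin n → K) →ₗ[K] (W → K) := fun P =>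
    (condMapW W (MvPolynomial.eval P c) (γ.map (MvPolynomial.eval P))).comp
      (Fintype.linearCombination K v)
  have hL : ∀ P (a : Fin n → K), L P a = condMapW W (MvPolynomial.eval P c)
      (γ.map (MvPolynomial.eval P)) (∑ i, a i • v i) := fun P a => rfl
  have hker : LinearMap.ker (L P0) = ⊥ := by
    rw [LinearMap.ker_eq_bot']
    intro a ha
    rw [hL, ← mem_sIdeal_iff hW] at ha
    exact funext (hli a ha)
  obtain ⟨G, hG⟩ := LinearMap.exists_leftInverse_of_injective (L P0) hker
  let Gen : W → Fin n → MvPolynomial σ K := fun p i =>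
    ((sh c γ ((v i).map (mapRingHom MvPolynomial.C))).coeff p.1.2).coeff p.1.1
  have hGen : ∀ P p i, MvPolynomial.eval P (Gen p i) = L P (Pi.single i 1) p := by
    intro P p i
    rw [hL]
    have h1 : ∑ j, (Pi.single i 1 : Fin n → K) j • v j = v i := by
      rw [Finset.sum_eq_single i]
      · simp
      · intro j _ hj
        rw [Pi.single_eq_of_ne hj, zero_smul]
      · intro h
        exact absurd (Finset.mem_univ i) h
    rw [h1]
    exact eval_gen P c γ (v i) _ _
  let Mx : Matrix (Fin n) (Fin n) (MvPolynomial σ K) := fun k i =>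
    ∑ p, MvPolynomial.C (G (Pi.single p 1) k) * Gen p i
  have hMx : ∀ P k i, MvPolynomial.eval P (Mx k i) = G (L P (Pi.single i 1)) k := by
    intro P k i
    show MvPolynomial.eval P (∑ p, MvPolynomial.C (G (Pi.single p 1) k) * Gen p i) = _
    rw [map_sum]
    have h1 : L P (Pi.single i 1) = ∑ p, (L P (Pi.single i 1) p) • (Pi.single p 1 : _ → K) := by
      ext q
      simp [Finset.sum_apply, Pi.single_apply]
    conv_rhs => rw [h1]
    rw [map_sum, Finset.sum_apply]
    refine Finset.sum_congr rfl fun p _ => ?_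
    rw [map_mul, MvPolynomial.eval_C, hGen, map_smul, Pi.smul_apply, smul_eq_mul, mul_comm]
  have hdet : ∀ P, MvPolynomial.eval P Mx.det =
      (Matrix.of fun k i => G (L P (Pi.single i 1)) k).det := by
    intro P
    rw [RingHom.map_det]
    congr 1
    ext k i
    exact hMx P k i
  refine ⟨Mx.det, ?_, fun P hP => ⟨v, hv, fun a ha => ?_⟩⟩
  · intro h0
    have h1 := hdet P0
    rw [h0, map_zero] at h1
    have h2 : (Matrix.of fun k i => G (L P0 (Pi.single i 1)) k) =
        (1 : Matrix (Fin n) (Fin n) K) := by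
      ext k i
      have h3 : G (L P0 (Pi.single i 1)) = Pi.single i 1 :=
        LinearMap.congr_fun hG (Pi.single i 1)
      rw [Matrix.of_apply, h3, Matrix.one_apply, Pi.single_apply]
    rw [h2, Matrix.det_one] at h1
    exact zero_ne_one h1
  · rw [hdet] at hP
    rw [mem_sIdeal_iff hW, ← hL] at ha
    have h1 : (Matrix.of fun k i => G (L P (Pi.single i 1)) k).mulVec a = 0 := by
      ext k
      rw [Matrix.mulVec, dotProduct, Pi.zero_apply]
      have h2 : a = ∑ i, a i • (Pi.single i 1 : Fin n → K) := by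
        ext q
        simp [Finset.sum_apply, Pi.single_apply]
      have h3 : G (L P a) k = ∑ i, a i * G (L P (Pi.single i 1)) k := by
        conv_lhs => rw [h2]
        rw [map_sum, map_sum, Finset.sum_apply]
        refine Finset.sum_congr rfl fun i _ => ?_
        rw [map_smul, map_smul, Pi.smul_apply, smul_eq_mul]
      rw [ha, map_zero, Pi.zero_apply] at h3
      rw [h3]
      exact Finset.sum_congr rfl fun i _ => mul_comm _ _
    exact fun i => congrFun (Matrix.eq_zero_of_mulVec_eq_zero hP h1) i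

theorem sh_zero_sh (a b : K) (γ : K[X]) (f : K[X][X]) :
    sh 0 (γ.comp (X + C a) - C b) (sh a (C b) f) = sh a γ f := by
  have h : (sh 0 (γ.comp (X + C a) - C b)).comp (sh a (C b)) = sh a γ := by
    refine ringHom_ext' (ringHom_ext' ?_ ?_) ?_
    · ext k
      simp [sh_C]
    · simp [sh_C]
    · simp [sh_X, sh_C]
      ring
  exact congrArg (fun φ : K[X][X] →+* K[X][X] => φ f) h

/-- One may move the centre to the origin. -/
theorem noForm_origin {W : Finset (ℕ × ℕ)} (hW : Stair W) {a : K} {γ : K[X]} {d : ℕ}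
    (h : NoForm (sIdeal hW a γ) d) :
    NoForm (sIdeal hW 0 (γ.comp (X + C a) - C (γ.eval a))) d := by
  intro F hF hF'
  have h1 : F = tr a (γ.eval a) (tr (-a) (-(γ.eval a)) F) := by
    have := tr_tr (-a) (-(γ.eval a)) F
    rw [neg_neg, neg_neg] at this
    exact this.symm
  have h2 : deh K F = sh a (C (γ.eval a)) (deh K (tr (-a) (-(γ.eval a)) F)) := by
    conv_lhs => rw [h1]
    rw [deh_tr]
  rw [mem_sIdeal] at hF'
  have h3 : tr (-a) (-(γ.eval a)) F = 0 := by
    refine h _ (tr_homog hF) ?_
    rw [mem_sIdeal]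
    intro p hp
    rw [← sh_zero_sh a (γ.eval a), ← h2]
    exact hF' p hp
  rw [h1, h3, map_zero]

end Pool.Agent.H350R3.QM
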