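import Mathlib
import Pool.Agent.H350R3.QM.Gen

set_option autoImplicit false

/-!
# Power series germs and their jets
-/

namespace Pool.Agent.H350R3.QM

open Polynomial Pool.Agent.H932R2 Pool.Agent.H932R3

variable {K : Type*} [Field K]

/-- The form `f` in the coordinates `x`, `z = y - x c(x)`. -/
noncomputable def pb (c : ℕ → K) : MvPolynomial (Fin 3) K →ₐ[K] Polynomial (PowerSeries K) :=
  MvPolynomial.aeval (![Polynomial.C PowerSeries.X,
    Polynomial.C (PowerSeries.X * PowerSeries.mk c) + Polynomial.X, 1] :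
      Fin 3 → Polynomial (PowerSeries K))

/-- The polynomial truncation of the germ. -/
noncomputable def jet {A : Type*} [CommRing A] (n : ℕ) (c : ℕ → A) : A[X] :=
  ∑ k ∈ Finset.range n, C (c k) * X ^ (k + 1)

theorem coeff_jet {A : Type*} [CommRing A] (n : ℕ) (c : ℕ → A) (i : ℕ) :
    (jet n c).coeff i = if 0 < i ∧ i ≤ n then c (i - 1) else 0 := by
  unfold jet
  simp only [finsetSum_coeff, coeff_C_mul, coeff_X_pow]
  rcases i with _ | i
  · simp
  · simp only [Nat.add_right_cancel_iff, mul_ite, mul_one, mul_zero, Nat.succ_pos, true_and,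
      Nat.add_sub_cancel]
    rw [Finset.sum_ite_eq (Finset.range n) i]
    simp only [Finset.mem_range, Nat.succ_le_iff]

theorem map_jet {A B : Type*} [CommRing A] [CommRing B] (φ : A →+* B) (n : ℕ) (c : ℕ → A) :
    (jet n c).map φ = jet n fun k => φ (c k) := by
  unfold jet
  rw [Polynomial.map_sum]
  refine Finset.sum_congr rfl fun k _ => ?_
  rw [Polynomial.map_mul, Polynomial.map_C, Polynomial.map_pow, Polynomial.map_X]

/-- The same with the truncated germ. -/
noncomputable def pbt (n : ℕ) (c : ℕ → K) :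
    MvPolynomial (Fin 3) K →ₐ[K] Polynomial (PowerSeries K) :=
  MvPolynomial.aeval (![Polynomial.C PowerSeries.X,
    Polynomial.C ((jet n c : K[X]) : PowerSeries K) + Polynomial.X, 1] :
      Fin 3 → Polynomial (PowerSeries K))

theorem pbt_eq (n : ℕ) (c : ℕ → K) (f : MvPolynomial (Fin 3) K) :
    pbt n c f = (sh 0 (jet n c) (deh K f)).map Polynomial.coeToPowerSeries.ringHom := by
  have h : ((pbt n c : MvPolynomial (Fin 3) K →+* Polynomial (PowerSeries K))) =
      ((mapRingHom Polynomial.coeToPowerSeries.ringHom).comp (sh 0 (jet n c))).comp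
        (deh K : MvPolynomial (Fin 3) K →+* K[X][X]) := by
    refine MvPolynomial.ringHom_ext (fun a => ?_) fun i => ?_
    · have h1 : deh K (MvPolynomial.C a) = C (C a) := (deh K).commutes a
      have h2 : pbt n c (MvPolynomial.C a) = C (PowerSeries.C a) := (pbt n c).commutes a
      simp only [RingHom.comp_apply, RingHom.coe_coe, h1, h2, sh_C, C_comp, coe_mapRingHom,
        Polynomial.map_C, Polynomial.coeToPowerSeries.ringHom_apply, Polynomial.coe_C]
    · fin_cases i
      · show pbt n c (MvPolynomial.X 0) = (sh 0 (jet n c) (deh K (MvPolynomial.X 0))).map _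
        rw [deh_X0, sh_C, X_comp, C_0, add_zero, Polynomial.map_C]
        simp [pbt]
      · show pbt n c (MvPolynomial.X 1) = (sh 0 (jet n c) (deh K (MvPolynomial.X 1))).map _
        rw [deh_X1, sh_X, C_0, add_zero, comp_X, Polynomial.map_add, Polynomial.map_X,
          Polynomial.map_C]
        simp [pbt, add_comm]
      · show pbt n c (MvPolynomial.X 2) = (sh 0 (jet n c) (deh K (MvPolynomial.X 2))).map _
        rw [deh_X2, map_one, Polynomial.map_one]
        simp [pbt]
  exact congrArg (fun φ : MvPolynomial (Fin 3) K →+* Polynomial (PowerSeries K) => φ f) h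

theorem germ_sub (n : ℕ) (c : ℕ → K) :
    (PowerSeries.X : PowerSeries K) ^ (n + 1) ∣
      PowerSeries.X * PowerSeries.mk c - ((jet n c : K[X]) : PowerSeries K) := by
  rw [PowerSeries.X_pow_dvd_iff]
  intro m hm
  rw [map_sub, Polynomial.coeff_coe, coeff_jet]
  rcases m with _ | m
  · simp
  · rw [PowerSeries.coeff_succ_X_mul, PowerSeries.coeff_mk, if_pos ⟨by omega, by omega⟩,
      Nat.add_sub_cancel, sub_self]

theorem pb_sub_pbt (n : ℕ) (c : ℕ → K) (f : MvPolynomial (Fin 3) K) :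
    ∃ g : Polynomial (PowerSeries K), pb c f - pbt n c f = C (PowerSeries.X ^ (n + 1)) * g := by
  have h : (Ideal.Quotient.mkₐ K (Ideal.span {(C (PowerSeries.X ^ (n + 1)) :
      Polynomial (PowerSeries K))})).comp (pb c) =
      (Ideal.Quotient.mkₐ K (Ideal.span {(C (PowerSeries.X ^ (n + 1)) :
      Polynomial (PowerSeries K))})).comp (pbt n c) := by
    refine MvPolynomial.algHom_ext fun i => ?_
    rw [AlgHom.comp_apply, AlgHom.comp_apply, Ideal.Quotient.mkₐ_eq_mk, Ideal.Quotient.eq,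
      Ideal.mem_span_singleton]
    fin_cases i
    · simp [pb, pbt]
    · obtain ⟨g, hg⟩ := germ_sub n c
      refine ⟨C g, ?_⟩
      rw [← C_mul, ← hg]
      simp [pb, pbt]
    · simp [pb, pbt]
  have h1 := AlgHom.congr_fun h f
  rw [AlgHom.comp_apply, AlgHom.comp_apply, Ideal.Quotient.mkₐ_eq_mk, Ideal.Quotient.eq,
    Ideal.mem_span_singleton] at h1
  exact h1

theorem coeff_pb (n : ℕ) (c : ℕ → K) (f : MvPolynomial (Fin 3) K) {i : ℕ} (hi : i ≤ n) (l : ℕ) :
    PowerSeries.coeff i ((pb c f).coeff l) =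
      ((sh 0 (jet n c) (deh K f)).coeff l).coeff i := by
  obtain ⟨g, hg⟩ := pb_sub_pbt n c f
  have h1 : pb c f = pbt n c f + C (PowerSeries.X ^ (n + 1)) * g := by
    rw [← hg]
    ring
  rw [h1, coeff_add, map_add, coeff_C_mul, PowerSeries.coeff_X_pow_mul', if_neg (by omega),
    add_zero, pbt_eq, coeff_map, Polynomial.coeToPowerSeries.ringHom_apply,
    Polynomial.coeff_coe]

/-- Every nonzero form of degree `d` has a nonzero coefficient in `W`. -/
def Meets (c : ℕ → K) (W : Finset (ℕ × ℕ)) (d : ℕ) : Prop :=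
  ∀ f : MvPolynomial (Fin 3) K, f.IsHomogeneous d → f ≠ 0 →
    ∃ p ∈ W, PowerSeries.coeff p.1 ((pb c f).coeff p.2) ≠ 0

theorem exists_general {W : Finset (ℕ × ℕ)} (hW : Stair W) {d : ℕ}
    (h : RkS (sFam K hW) (Tset d) (Tfin d).card) :
    ∃ F : MvPolynomial ℕ K, F ≠ 0 ∧ ∀ c : ℕ → K, MvPolynomial.eval c F ≠ 0 → Meets c W d := by
  obtain ⟨_, ⟨a, γ, rfl⟩, hR⟩ := h
  have h1 := (noForm_origin hW (NoForm.of_rk hR)).rk
  obtain ⟨g, hg⟩ : ∃ g, g = γ.comp (X + C a) - C (γ.eval a) := ⟨_, rfl⟩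
  rw [← hg] at h1
  have hg0 : g.coeff 0 = 0 := by
    rw [hg, coeff_zero_eq_eval_zero]
    simp
  obtain ⟨n, hn⟩ : ∃ n, n = g.natDegree + W.sup Prod.fst := ⟨_, rfl⟩
  have hgj : g = jet n fun k => g.coeff (k + 1) := by
    ext i
    rw [coeff_jet]
    rcases i with _ | i
    · rw [if_neg (by omega), hg0]
    · split_ifs with h2
      · rw [Nat.add_sub_cancel]
      · exact coeff_eq_zero_of_natDegree_lt (by omega)
  obtain ⟨F, hF, hF'⟩ := exists_openW hW (MvPolynomial.C 0 : MvPolynomial ℕ K)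
    (jet n fun k => MvPolynomial.X k) (Tset d) (Tfin d).card (fun k => g.coeff (k + 1)) (by
    rw [map_jet, MvPolynomial.eval_C]
    simp only [MvPolynomial.eval_X]
    rw [← hgj]
    exact h1)
  refine ⟨F, hF, fun c hc f hf hf0 => ?_⟩
  have h2 := NoForm.of_rk (hF' c hc)
  rw [map_jet, MvPolynomial.eval_C] at h2
  simp only [MvPolynomial.eval_X] at h2
  by_contra hcon
  push Not at hcon
  refine hf0 (h2 f hf ?_)
  rw [mem_sIdeal]
  intro p hp
  rw [← coeff_pb n c f (i := p.1) (by
    have : p.1 ≤ W.sup Prod.fst := Finset.le_sup (f := Prod.fst) hp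
    omega)]
  exact hcon p hp

/-- Very general germs for all finite staircases and all degrees at once. -/
theorem exists_veryGeneral (K : Type*) [Field K] :
    ∃ S : ℕ → MvPolynomial ℕ K, (∀ k, S k ≠ 0) ∧
      ∀ c : ℕ → K, (∀ k, MvPolynomial.eval c (S k) ≠ 0) →
        ∀ (W : Finset (ℕ × ℕ)) (hW : Stair W) (d : ℕ),
          RkS (sFam K hW) (Tset d) (Tfin d).card → Meets c W d := by
  classical
  have key : ∀ p : ℕ × Finset (ℕ × ℕ), ∃ F : MvPolynomial ℕ K, F ≠ 0 ∧
      ∀ c : ℕ → K, MvPolynomial.eval c F ≠ 0 → ∀ hW : Stair p.2,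
        RkS (sFam K hW) (Tset p.1) (Tfin p.1).card → Meets c p.2 p.1 := by
    rintro ⟨d, W⟩
    by_cases h : ∃ hW : Stair W, RkS (sFam K hW) (Tset d) (Tfin d).card
    · obtain ⟨hW, h⟩ := h
      obtain ⟨F, hF, hF'⟩ := exists_general hW h
      exact ⟨F, hF, fun c hc _ _ => hF' c hc⟩
    · exact ⟨1, one_ne_zero, fun c _ hW h' => absurd ⟨hW, h'⟩ h⟩
  choose G hG hG' using key
  refine ⟨fun k => match Encodable.decode (α := ℕ × Finset (ℕ × ℕ)) k with
    | some p => G p
    | none => 1, fun k => ?_, fun c hc W hW d h => ?_⟩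
  · rcases hk : Encodable.decode (α := ℕ × Finset (ℕ × ℕ)) k with _ | p
    · simp [hk]
    · simp only [hk]
      exact hG p
  · have h1 := hc (Encodable.encode ((d, W) : ℕ × Finset (ℕ × ℕ)))
    simp only [Encodable.encodek] at h1
    exact hG' (d, W) c h1 hW h

end Pool.Agent.H350R3.QM
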