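import Mathlib
import Pool.Agent.H350R3.QM.Ser

set_option autoImplicit false

/-!
# Upper bounds for the values of forms at very general germs
-/

namespace Pool.Agent.H350R3.QM

open Polynomial Pool.Agent.H932R2 Pool.Agent.H932R3

variable {K : Type*} [Field K]

/-- The value of `g` is at least `s`. -/
def VGe (t s : ℝ) (g : Polynomial (PowerSeries K)) : Prop :=
  ∀ i l : ℕ, (i : ℝ) + t * (l : ℝ) < s → PowerSeries.coeff i (g.coeff l) = 0

theorem VGe.mul {t s s' : ℝ} {g g' : Polynomial (PowerSeries K)} (h : VGe t s g)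
    (h' : VGe t s' g') : VGe t (s + s') (g * g') := by
  intro i l hil
  rw [coeff_mul, map_sum]
  refine Finset.sum_eq_zero fun p hp => ?_
  have hp := Finset.HasAntidiagonal.mem_antidiagonal.1 hp
  rw [PowerSeries.coeff_mul]
  refine Finset.sum_eq_zero fun q hq => ?_
  have hq := Finset.HasAntidiagonal.mem_antidiagonal.1 hq
  have e1 : (p.1 : ℝ) + p.2 = l := by exact_mod_cast hp
  have e2 : (q.1 : ℝ) + q.2 = i := by exact_mod_cast hq
  rcases lt_or_ge ((q.1 : ℝ) + t * p.1) s with h1 | h1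
  · rw [h _ _ h1, zero_mul]
  · rw [h' q.2 p.2 (by
      rw [← e1, ← e2, mul_add] at hil
      linarith), mul_zero]

theorem VGe.pow {t s : ℝ} (ht : 0 < t) {g : Polynomial (PowerSeries K)} (h : VGe t s g) (k : ℕ) :
    VGe t (k * s) (g ^ k) := by
  induction k with
  | zero =>
    intro i l hil
    exfalso
    have h1 : (0 : ℝ) ≤ (i : ℝ) + t * l := by positivity
    push_cast at hil
    linarith
  | succ k ih =>
    rw [pow_succ]
    have h1 := ih.mul h
    have h2 : ((k + 1 : ℕ) : ℝ) * s = k * s + s := by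
      push_cast
      ring
    rw [h2]
    exact h1

theorem exists_gap (t x : ℝ) (ht : 0 < t) :
    ∃ s : ℝ, x < s ∧ ∀ i l : ℕ, x < (i : ℝ) + t * l → s ≤ (i : ℝ) + t * l := by
  classical
  obtain ⟨A, hA⟩ : ∃ A : Finset ℝ, A = insert (x + 1)
      (((Wt t (x + 1)).image fun p : ℕ × ℕ => (p.1 : ℝ) + t * (p.2 : ℝ)).filter
        fun y => x < y) := ⟨_, rfl⟩
  have hne : A.Nonempty := by
    rw [hA]
    exact Finset.insert_nonempty _ _
  refine ⟨A.min' hne, ?_, fun i l hil => ?_⟩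
  · have h1 := A.min'_mem hne
    generalize A.min' hne = y at h1
    rw [hA, Finset.mem_insert, Finset.mem_filter] at h1
    rcases h1 with h1 | h1
    · rw [h1]
      linarith
    · exact h1.2
  · rcases lt_or_ge ((i : ℝ) + t * l) (x + 1) with h1 | h1
    · refine A.min'_le _ ?_
      rw [hA, Finset.mem_insert, Finset.mem_filter, Finset.mem_image]
      exact Or.inr ⟨⟨(i, l), (mem_Wt ht).2 h1, rfl⟩, hil⟩
    · refine (A.min'_le (x + 1) ?_).trans h1
      rw [hA]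
      exact Finset.mem_insert_self _ _

theorem Meets.mono {c : ℕ → K} {W : Finset (ℕ × ℕ)} {d d' : ℕ} (h : d ≤ d')
    (hM : Meets c W d') : Meets c W d := by
  intro f hf hf0
  have h1 : (f * MvPolynomial.X 2 ^ (d' - d)).IsHomogeneous d' := by
    have h2 := hf.mul ((MvPolynomial.isHomogeneous_X K (2 : Fin 3)).pow (d' - d))
    rw [one_mul, Nat.add_sub_cancel' h] at h2
    exact h2
  have h2 := hM _ h1 (mul_ne_zero hf0 (pow_ne_zero _ (MvPolynomial.X_ne_zero _)))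
  have h3 : pb c (MvPolynomial.X 2) = 1 := by simp [pb]
  rw [map_mul, map_pow, h3, one_pow, mul_one] at h2
  exact h2

theorem bound_of_meets [Infinite K] (hK : ∀ k : ℕ, 0 < k → (k : K) ≠ 0) {c : ℕ → K}
    (hc : ∀ (W : Finset (ℕ × ℕ)) (hW : Stair W) (d : ℕ),
      RkS (sFam K hW) (Tset d) (Tfin d).card → Meets c W d)
    {δ : ℕ} (hδ : 2 ≤ δ) {σ : ℝ} (hσ : Reach δ σ) {t : ℝ} (ht : 0 < t) {d : ℕ}
    {f : MvPolynomial (Fin 3) K} (hf : f.IsHomogeneous d) (hf0 : f ≠ 0) :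
    ∃ i j : ℕ, PowerSeries.coeff i ((pb c f).coeff j) ≠ 0 ∧
      (i : ℝ) + t * (j : ℝ) ≤ d * (Real.sqrt σ * max 1 (t / σ)) := by
  obtain ⟨μ, hμ⟩ : ∃ μ, μ = Real.sqrt σ * max 1 (t / σ) := ⟨_, rfl⟩
  have hσ0 : 0 < σ := hσ.pos (by omega)
  have hμ0 : 0 < μ := by
    rw [hμ]
    have h1 : 0 < max 1 (t / σ) := lt_of_lt_of_le one_pos (le_max_left _ _)
    have h2 : 0 < Real.sqrt σ := Real.sqrt_pos.2 hσ0
    positivity
  rw [← hμ]
  by_contra hcon
  push Not at hcon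
  obtain ⟨s, hs1, hs2⟩ := exists_gap t (d * μ) ht
  have hv : VGe t s (pb c f) := by
    intro i l hil
    by_contra h1
    have h2 := hs2 i l (hcon i l h1)
    linarith
  obtain ⟨E, hE⟩ : ∃ E : ℕ, E = δ * ((δ - 1) * (δ - 2)) := ⟨_, rfl⟩
  obtain ⟨k, hk⟩ := exists_nat_gt (((E : ℝ) + 2) * μ / (s - d * μ))
  have hs3 : 0 < s - d * μ := by linarith
  rw [div_lt_iff₀ hs3] at hk
  have hR := rank_Wt (K := K) (s := k * s) ht (δ := δ) (d := k * d + E) (B := δ * (k * d + E))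
    hδ (by rw [← hE]; omega) le_rfl (fun j hj _ => hK j hj) hσ (by
    rw [← hμ]
    push_cast
    have hδR : (2 : ℝ) ≤ δ := by exact_mod_cast hδ
    nlinarith)
  have h1 := Meets.mono (Nat.le_add_right (k * d) E) (hc _ _ _ hR)
  obtain ⟨⟨i, l⟩, hp, hne⟩ := h1 (f ^ k) (by
    have := hf.pow k
    rwa [mul_comm] at this) (pow_ne_zero k hf0)
  rw [mem_Wt ht] at hp
  refine hne ?_
  rw [map_pow]
  exact VGe.pow ht hv k i l hp

theorem bound_of_meets' [Infinite K] (hK : ∀ k : ℕ, 0 < k → (k : K) ≠ 0) {c : ℕ → K}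
    (hc : ∀ (W : Finset (ℕ × ℕ)) (hW : Stair W) (d : ℕ),
      RkS (sFam K hW) (Tset d) (Tfin d).card → Meets c W d)
    {δ : ℕ} (hδ : 2 ≤ δ) {σ : ℝ} (hσ : Reach δ σ) {t : ℝ} (ht : 0 < t) {d k : ℕ} (hk : 0 < k)
    (hE : δ * ((δ - 1) * (δ - 2)) ≤ 2 * (k * d))
    {f : MvPolynomial (Fin 3) K} (hf : f.IsHomogeneous d) (hf0 : f ≠ 0) :
    ∃ i j : ℕ, PowerSeries.coeff i ((pb c f).coeff j) ≠ 0 ∧
      (i : ℝ) + t * (j : ℝ) ≤
        ((2 * (k * d : ℝ) + 3 - δ) / 2 * (Real.sqrt σ * max 1 (t / σ))) / k := by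
  obtain ⟨b, hb⟩ : ∃ b, b = (2 * (k * d : ℝ) + 3 - δ) / 2 * (Real.sqrt σ * max 1 (t / σ)) :=
    ⟨_, rfl⟩
  have hkR : (0 : ℝ) < k := by exact_mod_cast hk
  rw [← hb]
  by_contra hcon
  push Not at hcon
  obtain ⟨s, hs1, hs2⟩ := exists_gap t (b / k) ht
  have hv : VGe t s (pb c f) := by
    intro i l hil
    by_contra h1
    have h2 := hs2 i l (hcon i l h1)
    linarith
  have hR := rank_Wt (K := K) (s := k * s) ht (δ := δ) (d := k * d) (B := δ * (k * d))
    hδ hE le_rfl (fun j hj _ => hK j hj) hσ (by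
    push_cast
    rw [← hb]
    rw [div_lt_iff₀ hkR] at hs1
    linarith)
  obtain ⟨⟨i, l⟩, hp, hne⟩ := (hc _ _ _ hR) (f ^ k) (by
    have := hf.pow k
    rwa [mul_comm] at this) (pow_ne_zero k hf0)
  rw [mem_Wt ht] at hp
  refine hne ?_
  rw [map_pow]
  exact VGe.pow ht hv k i l hp

end Pool.Agent.H350R3.QM
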